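import Mathlib

set_option autoImplicit false

namespace Pool.Agent.Results.MP_570618_gt.TkachenkoAllFalse

open Topology Filter Set

/-- `X` is an Eberlein compact space: a compact Hausdorff space that embeds in `C_p(K)` for some
compact Hausdorff space `K` (the continuous real functions on `K` with the topology inherited from
the product space `K → ℝ`). -/
def IsEberlein (X : Type) [TopologicalSpace X] : Prop :=
  CompactSpace X ∧ T2Space X ∧
    ∃ (K : Type) (_ : TopologicalSpace K), CompactSpace K ∧ T2Space K ∧
      ∃ e : X → (K → ℝ), (∀ x, Continuous (e x)) ∧ IsEmbedding e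

/-- `S` is a dense subspace of `C_p(X)`: `S` consists of continuous functions, and every continuous
function is in the closure of `S` for the topology of pointwise convergence. -/
def DenseInCp (X : Type) [TopologicalSpace X] (S : Set (X → ℝ)) : Prop :=
  (∀ f ∈ S, Continuous f) ∧ ∀ f : X → ℝ, Continuous f → f ∈ closure S

/-- The setting of the problem: `Y` is a Tychonoff space, `B` is a compact subset of `Y`, and `Y` is
a continuous image of a dense subspace `S` of `C_p(X)` for some Eberlein compact space `X`. -/
def Arises (Y : Type) [TopologicalSpace Y] (B : Set Y) : Prop :=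
  T35Space Y ∧ IsCompact B ∧
    ∃ (X : Type) (_ : TopologicalSpace X), IsEberlein X ∧
      ∃ S : Set (X → ℝ), DenseInCp X S ∧ ∃ F : S → Y, Continuous F ∧ Function.Surjective F

/-- Countable tightness. -/
def CountablyTight (Z : Type) [TopologicalSpace Z] : Prop :=
  ∀ (A : Set Z) (z : Z), z ∈ closure A → ∃ A' : Set Z, A' ⊆ A ∧ A'.Countable ∧ z ∈ closure A'

/-- `𝒩` is a network of the subspace `T` of `Z`. -/
def IsNetwork {Z : Type} [TopologicalSpace Z] (T : Set Z) (𝒩 : Set (Set Z)) : Prop :=
  ∀ U : Set Z, IsOpen U → ∀ x ∈ T ∩ U, ∃ N ∈ 𝒩, x ∈ N ∧ N ⊆ T ∩ U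

/-- `Z` is monolithic: for every infinite subset `A`, the closure of `A` has a network of
cardinality at most that of `A`. -/
def Monolithic (Z : Type) [TopologicalSpace Z] : Prop :=
  ∀ A : Set Z, A.Infinite → ∃ 𝒩 : Set (Set Z), Cardinal.mk 𝒩 ≤ Cardinal.mk A ∧
    IsNetwork (closure A) 𝒩

/-! ### The target compacta -/

/-- antitone `0-1` functions on a linear order -/
def B0 (L : Type) [LinearOrder L] : Set (L → ℝ) :=
  {y | (∀ l, y l = 0 ∨ y l = 1) ∧ ∀ l l', l ≤ l' → y l' ≤ y l}

lemma B0_compact (L : Type) [LinearOrder L] : IsCompact (B0 L) := by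
  have h1 : IsCompact (Set.univ.pi fun _ : L => ({0, 1} : Set ℝ)) :=
    isCompact_univ_pi fun _ => (Set.toFinite _).isCompact
  apply h1.of_isClosed_subset
  · have e : B0 L = (⋂ l : L, {y : L → ℝ | y l ∈ ({0, 1} : Set ℝ)}) ∩
        ⋂ l : L, ⋂ l' : L, ⋂ _ : l ≤ l', {y : L → ℝ | y l' ≤ y l} := by
      ext y
      simp only [B0, Set.mem_inter_iff, Set.mem_iInter]
      constructor
      · rintro ⟨h1, h2⟩
        exact ⟨fun l => h1 l, fun l l' h => h2 l l' h⟩
      · rintro ⟨h1, h2⟩
        exact ⟨fun l => h1 l, fun l l' h => h2 l l' h⟩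
    rw [e]
    apply IsClosed.inter
    · apply isClosed_iInter
      intro l
      exact (Set.toFinite ({0, 1} : Set ℝ)).isClosed.preimage (continuous_apply l)
    · apply isClosed_iInter
      intro l
      apply isClosed_iInter
      intro l'
      apply isClosed_iInter
      intro _
      exact isClosed_le (continuous_apply l') (continuous_apply l)
  · intro y hy l _
    exact hy.1 l

/-! ### One point compactifications of discrete spaces -/

section onept

variable {κ : Type} [TopologicalSpace κ] [DiscreteTopology κ]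

open Classical in
/-- symmetric kernel -/
noncomputable def mm (x k : OnePoint κ) : ℝ := if x = k ∧ x ≠ OnePoint.infty then 1 else 0

omit [TopologicalSpace κ] [DiscreteTopology κ] in
lemma mm_symm (x k : OnePoint κ) : mm x k = mm k x := by
  unfold mm
  by_cases h : x = k
  · subst h; rfl
  · rw [if_neg (fun h' => h h'.1), if_neg (fun h' => h h'.1.symm)]

/-- extension of a function by `0` at infinity -/
def ext0 (g : κ → ℝ) : OnePoint κ → ℝ
  | none => 0
  | some k => g k

lemma ext0_cont {g : κ → ℝ} (hg : Tendsto g cofinite (𝓝 0)) : Continuous (ext0 g) := by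
  rw [OnePoint.continuous_iff_from_discrete]
  exact hg

omit [TopologicalSpace κ] [DiscreteTopology κ] in
lemma tendsto_zero_iff {g : κ → ℝ} (h : ∀ ε : ℝ, 0 < ε → {k | ε ≤ |g k|}.Finite) :
    Tendsto g cofinite (𝓝 0) := by
  rw [Metric.tendsto_nhds]
  intro ε hε
  rw [eventually_cofinite]
  refine (h ε hε).subset ?_
  intro k hk
  have hk' : ¬ dist (g k) 0 < ε := hk
  rw [Real.dist_eq, sub_zero] at hk'
  exact not_lt.1 hk'

lemma mm_cont (x : OnePoint κ) : Continuous (mm x) := by
  rw [OnePoint.continuous_iff_from_discrete]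
  have h0 : mm x OnePoint.infty = 0 := by
    unfold mm
    rw [if_neg]
    rintro ⟨h1, h2⟩
    exact h2 h1
  rw [h0]
  apply tendsto_zero_iff
  intro ε hε
  have : {k : κ | ε ≤ |mm x (k : OnePoint κ)|} ⊆ {k : κ | (k : OnePoint κ) = x} := by
    intro k hk
    have hk' : ε ≤ |mm x (k : OnePoint κ)| := hk
    by_contra hne
    have : mm x (k : OnePoint κ) = 0 := by
      unfold mm
      rw [if_neg]
      rintro ⟨h1, _⟩
      exact hne h1.symm
    rw [this, abs_zero] at hk'
    linarith
  refine Set.Finite.subset ?_ this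
  apply Set.Subsingleton.finite
  intro a ha b hb
  have ha' : (a : OnePoint κ) = x := ha
  have hb' : (b : OnePoint κ) = x := hb
  exact OnePoint.coe_injective (ha'.trans hb'.symm)

lemma onePoint_eberlein : IsEberlein (OnePoint κ) := by
  refine ⟨inferInstance, inferInstance, OnePoint κ, inferInstance, inferInstance, inferInstance,
    mm, mm_cont, ?_⟩
  have hcont : Continuous (mm : OnePoint κ → (OnePoint κ → ℝ)) := by
    apply continuous_pi
    intro k
    have : (fun x : OnePoint κ => mm x k) = mm k := by
      funext x; exact mm_symm x k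
    rw [this]
    exact mm_cont k
  have hinj : Function.Injective (mm : OnePoint κ → (OnePoint κ → ℝ)) := by
    intro x y hxy
    by_cases hx : x = OnePoint.infty
    · by_cases hy : y = OnePoint.infty
      · rw [hx, hy]
      · have := congrFun hxy y
        have e1 : mm y y = 1 := by unfold mm; rw [if_pos ⟨rfl, hy⟩]
        rw [e1] at this
        unfold mm at this
        by_contra hne
        rw [if_neg (fun h => hne h.1)] at this
        norm_num at this
    · have := congrFun hxy x
      have e1 : mm x x = 1 := by unfold mm; rw [if_pos ⟨rfl, hx⟩]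
      rw [e1] at this
      unfold mm at this
      by_contra hne
      rw [if_neg (fun h => hne h.1.symm)] at this
      norm_num at this
  exact (hcont.isClosedEmbedding hinj).isEmbedding

end onept

/-! ### The main construction -/

theorem construction (κ : Type) [TopologicalSpace κ] [DiscreteTopology κ] (p : κ)
    (E : Type) (L : Type) [LinearOrder L]
    (d : E → κ → ℝ) (hd : ∀ e, Tendsto (d e) cofinite (𝓝 0))
    (P Q : L → (OnePoint κ → ℝ) → ℝ) (hP : ∀ l, Continuous (P l)) (hQ : ∀ l, Continuous (Q l))
    (hQ0 : ∀ l s, 0 ≤ Q l s)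
    (hPp : ∀ l s, s (p : OnePoint κ) ≠ 0 → 0 < P l s)
    (u : E → L → ℝ) (hu : ∀ e, u e ∈ B0 L)
    (h0 : ∀ e l, u e l = 0 → P l (ext0 (d e)) = 0 ∧ 0 < Q l (ext0 (d e)))
    (h1 : ∀ e l, u e l = 1 → Q l (ext0 (d e)) = 0 ∧ 0 < P l (ext0 (d e)))
    (hsurj : ∀ y ∈ B0 L, ∃ e, u e = y) :
    ∃ (Y : Type) (_ : TopologicalSpace Y) (B : Set Y), Arises Y B ∧
      ∃ j : B → (L → ℝ), IsEmbedding j ∧ Set.range j = B0 L := by
  classical
  obtain ⟨S, hSd⟩ : ∃ S : Set (OnePoint κ → ℝ), S = {s : OnePoint κ → ℝ | Continuous s ∧
    (s (p : OnePoint κ) ≠ 0 ∨ ∃ e, s = ext0 (d e))} := ⟨_, rfl⟩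
  have memS : ∀ s, s ∈ S ↔ (Continuous s ∧ (s (p : OnePoint κ) ≠ 0 ∨ ∃ e, s = ext0 (d e))) := by
    intro s; rw [hSd]; rfl
  have hpos : ∀ s ∈ S, ∀ l, P l s + Q l s ≠ 0 := by
    intro s hs l
    rw [memS] at hs
    rcases hs.2 with h | ⟨e, rfl⟩
    · have := hPp l s h
      have := hQ0 l s
      linarith
    · rcases (hu e).1 l with h | h
      · have := h0 e l h
        linarith [this.1, this.2]
      · have := h1 e l h
        linarith [this.1, this.2]
  obtain ⟨F, hF⟩ : ∃ F : S → (L → ℝ), F = fun s l => P l s.1 / (P l s.1 + Q l s.1) := ⟨_, rfl⟩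
  have hFc : Continuous F := by
    rw [hF]
    apply continuous_pi
    intro l
    apply Continuous.div
    · exact (hP l).comp continuous_subtype_val
    · exact ((hP l).comp continuous_subtype_val).add ((hQ l).comp continuous_subtype_val)
    · intro s; exact hpos s.1 s.2 l
  have hdS : ∀ e, ext0 (d e) ∈ S := fun e => (memS _).2 ⟨ext0_cont (hd e), Or.inr ⟨e, rfl⟩⟩
  have hFd : ∀ e, F ⟨ext0 (d e), hdS e⟩ = u e := by
    intro e
    rw [hF]
    funext l
    show P l (ext0 (d e)) / (P l (ext0 (d e)) + Q l (ext0 (d e))) = u e l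
    rcases (hu e).1 l with h | h
    · rw [(h0 e l h).1, h, zero_div]
    · rw [(h1 e l h).1, h, add_zero, div_self (h1 e l h).2.ne']
  refine ⟨Set.range F, inferInstance, Subtype.val ⁻¹' (B0 L), ?_, ?_⟩
  · refine ⟨inferInstance, ?_, OnePoint κ, inferInstance, onePoint_eberlein, S, ?_, ?_⟩
    · rw [Subtype.isCompact_iff]
      have : (Subtype.val '' (Subtype.val ⁻¹' (B0 L) : Set (Set.range F))) = B0 L := by
        rw [Subtype.image_preimage_coe, Set.inter_eq_right]
        intro y hy
        obtain ⟨e, he⟩ := hsurj y hy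
        exact ⟨⟨ext0 (d e), hdS e⟩, (hFd e).trans he⟩
      rw [this]
      exact B0_compact L
    · refine ⟨fun f hf => ((memS f).1 hf).1, ?_⟩
      intro f hf
      by_cases hfp : f (p : OnePoint κ) = 0
      · have hcur : Continuous (fun t : ℝ => fun x : OnePoint κ => f x + t * mm (p : OnePoint κ) x) := by
          apply continuous_pi
          intro x
          fun_prop
        have htend : Tendsto (fun t : ℝ => fun x : OnePoint κ => f x + t * mm (p : OnePoint κ) x)
            (𝓝[≠] 0) (𝓝 f) := by
          have h2 : Tendsto (fun t : ℝ => fun x : OnePoint κ => f x + t * mm (p : OnePoint κ) x)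
            (𝓝 0) (𝓝 f) := by
            have h3 := hcur.tendsto 0
            have h4 : (fun x : OnePoint κ => f x + 0 * mm (p : OnePoint κ) x) = f := by
              funext x; ring
            rw [h4] at h3
            exact h3
          exact h2.mono_left nhdsWithin_le_nhds
        apply mem_closure_of_tendsto htend
        filter_upwards [self_mem_nhdsWithin] with t ht
        rw [memS]
        refine ⟨hf.add (continuous_const.mul (mm_cont _)), Or.inl ?_⟩
        have e1 : mm (p : OnePoint κ) (p : OnePoint κ) = 1 := by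
          unfold mm; rw [if_pos ⟨rfl, OnePoint.coe_ne_infty p⟩]
        show f (p : OnePoint κ) + t * mm (p : OnePoint κ) (p : OnePoint κ) ≠ 0
        rw [hfp, e1]
        simpa using ht
      · exact subset_closure ((memS f).2 ⟨hf, Or.inl hfp⟩)
    · exact ⟨Set.rangeFactorization F, hFc.subtype_mk _, Set.rangeFactorization_surjective⟩
  · refine ⟨fun b => b.1.1, IsEmbedding.subtypeVal.comp IsEmbedding.subtypeVal, ?_⟩
    ext y
    constructor
    · rintro ⟨b, rfl⟩
      exact b.2
    · intro hy
      obtain ⟨e, he⟩ := hsurj y hy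
      exact ⟨⟨⟨y, ⟨⟨ext0 (d e), hdS e⟩, (hFd e).trans he⟩⟩, hy⟩, rfl⟩

/-! ### First example: `ω₁ + 1` -/

/-- coordinates for the first example -/
inductive K1 (W : Type) : Type
  | p : K1 W
  | t : K1 W
  | c : W → K1 W
  | e : W → K1 W

instance (W : Type) : TopologicalSpace (K1 W) := ⊥
instance (W : Type) : DiscreteTopology (K1 W) := ⟨rfl⟩

section first

variable {W : Type} [LinearOrder W]

/-- the functions -/
noncomputable def d1 (h : W → W → ℕ) : Option W → K1 W → ℝ
  | none, K1.t => 1
  | none, _ => 0
  | some α, K1.c β => if β < α then 1 / ((h α β : ℝ) + 1) else 0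
  | some α, K1.e β => if β = α then 1 else 0
  | some _, _ => 0

/-- the target points -/
noncomputable def u1 : Option W → W → ℝ
  | none, _ => 1
  | some α, β => if β < α then 1 else 0

lemma first_example [WellFoundedLT W] (hC : ∀ α : W, (Set.Iio α).Countable) :
    ∃ (Y : Type) (_ : TopologicalSpace Y) (B : Set Y), Arises Y B ∧
      ∃ j : B → (W → ℝ), IsEmbedding j ∧ Set.range j = B0 W := by
  classical
  have hinj : ∀ α : W, ∃ f : W → ℕ, Set.InjOn f (Set.Iio α) := fun α =>
    Set.countable_iff_exists_injOn.1 (hC α)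
  choose h hh using hinj
  have hen : ∀ α : W, ∃ f : ℕ → W, Set.Iic α = Set.range f := by
    intro α
    have h1 : (Set.Iic α).Countable := by
      have : Set.Iic α = insert α (Set.Iio α) := by
        ext x; simp [le_iff_eq_or_lt]
      rw [this]
      exact (hC α).insert α
    exact h1.exists_eq_range ⟨α, le_rfl⟩
  choose en hen using hen
  have hd0 : ∀ e, Tendsto (d1 h e) cofinite (𝓝 0) := by
    intro e
    apply tendsto_zero_iff
    intro ε hε
    cases e with
    | none =>
      refine (Set.finite_singleton (K1.t : K1 W)).subset ?_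
      intro k hk
      have hk' : ε ≤ |d1 h none k| := hk
      cases k with
      | t => rfl
      | p => simp [d1] at hk'; linarith
      | c β => simp [d1] at hk'; linarith
      | e β => simp [d1] at hk'; linarith
    | some α =>
      obtain ⟨N, hN⟩ := exists_nat_gt (1 / ε)
      have hfin : {β | β ∈ Set.Iio α ∧ h α β ≤ N}.Finite := by
        apply Set.Finite.of_finite_image (f := h α)
        · refine (Set.finite_Iic N).subset ?_
          rintro _ ⟨β, hβ, rfl⟩
          exact hβ.2
        · exact (hh α).mono fun β hβ => hβ.1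
      refine ((hfin.image K1.c).union (Set.finite_singleton (K1.e α))).subset ?_
      intro k hk
      have hk' : ε ≤ |d1 h (some α) k| := hk
      cases k with
      | t => simp [d1] at hk'; linarith
      | p => simp [d1] at hk'; linarith
      | c β =>
        left
        refine ⟨β, ?_, rfl⟩
        by_cases hβ : β < α
        · refine ⟨hβ, ?_⟩
          have e1 : d1 h (some α) (K1.c β) = 1 / ((h α β : ℝ) + 1) := by
            show (if β < α then _ else _) = _
            rw [if_pos hβ]
          rw [e1, abs_of_pos (by positivity), le_div_iff₀ (by positivity)] at hk'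
          have h2 : (h α β : ℝ) + 1 ≤ 1 / ε := by
            rw [le_div_iff₀ hε]; linarith
          have h3 : (h α β : ℝ) < N := by linarith
          exact_mod_cast h3.le
        · exfalso
          have e1 : d1 h (some α) (K1.c β) = 0 := by
            show (if β < α then _ else _) = _
            rw [if_neg hβ]
          rw [e1, abs_zero] at hk'
          linarith
      | e β =>
        right
        by_cases hβ : β = α
        · rw [hβ]; rfl
        · exfalso
          have e1 : d1 h (some α) (K1.e β) = 0 := by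
            show (if β = α then _ else _) = _
            rw [if_neg hβ]
          rw [e1, abs_zero] at hk'
          linarith
  have hsumm : ∀ (l : W) (s : OnePoint (K1 W) → ℝ),
      Summable fun n : ℕ => (1 / 2 : ℝ) ^ n * min 1 |s ((K1.e (en l n) : K1 W) : OnePoint (K1 W))| := by
    intro l s
    apply Summable.of_nonneg_of_le _ _ summable_geometric_two
    · intro n; positivity
    · intro n
      have : min 1 |s ((K1.e (en l n) : K1 W) : OnePoint (K1 W))| ≤ 1 := min_le_left _ _
      have h2 : (0 : ℝ) < (1 / 2 : ℝ) ^ n := by positivity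
      nlinarith
  apply construction (K1 W) K1.p (Option W) W (d1 h) hd0
    (fun l s => |s ((K1.p : K1 W) : OnePoint (K1 W))| + |s ((K1.c l : K1 W) : OnePoint (K1 W))| +
      |s ((K1.t : K1 W) : OnePoint (K1 W))|)
    (fun l s => |s ((K1.p : K1 W) : OnePoint (K1 W))| +
      ∑' n : ℕ, (1 / 2 : ℝ) ^ n * min 1 |s ((K1.e (en l n) : K1 W) : OnePoint (K1 W))|)
    _ _ _ _ u1 _ _ _ _
  · intro l; fun_prop
  · intro l
    apply Continuous.add
    · fun_prop
    · apply continuous_tsum (u := fun n : ℕ => (1 / 2 : ℝ) ^ n)
      · intro n; fun_prop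
      · exact summable_geometric_two
      · intro n s
        rw [Real.norm_eq_abs, abs_of_nonneg (by positivity)]
        have : min 1 |s ((K1.e (en l n) : K1 W) : OnePoint (K1 W))| ≤ 1 := min_le_left _ _
        have h2 : (0 : ℝ) < (1 / 2 : ℝ) ^ n := by positivity
        nlinarith
  · intro l s
    have : 0 ≤ ∑' n : ℕ, (1 / 2 : ℝ) ^ n * min 1 |s ((K1.e (en l n) : K1 W) : OnePoint (K1 W))| :=
      tsum_nonneg fun n => by positivity
    positivity
  · intro l s hs
    have := abs_pos.2 hs
    positivity
  · intro e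
    cases e with
    | none => exact ⟨fun l => Or.inr rfl, fun l l' _ => le_rfl⟩
    | some α =>
      refine ⟨fun l => ?_, fun l l' hll => ?_⟩
      · show (if l < α then (1 : ℝ) else 0) = 0 ∨ (if l < α then (1 : ℝ) else 0) = 1
        split_ifs <;> simp
      · show (if l' < α then (1 : ℝ) else 0) ≤ (if l < α then (1 : ℝ) else 0)
        by_cases h1 : l' < α
        · rw [if_pos h1, if_pos (hll.trans_lt h1)]
        · rw [if_neg h1]; split_ifs <;> norm_num
  · intro e l hel
    cases e with
    | none =>
      exfalso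
      have : (1 : ℝ) = 0 := hel
      norm_num at this
    | some α =>
      have hel' : (if l < α then (1 : ℝ) else 0) = 0 := hel
      have hla : ¬ l < α := by
        intro h1
        rw [if_pos h1] at hel'
        norm_num at hel'
      constructor
      · show |(0 : ℝ)| + |(if l < α then 1 / ((h α l : ℝ) + 1) else 0)| + |(0 : ℝ)| = 0
        rw [if_neg hla]; simp
      · obtain ⟨n, hn⟩ : ∃ n, en l n = α := by
          have : α ∈ Set.Iic l := not_lt.1 hla
          rw [hen l] at this
          exact this
        have hs := (hsumm l (ext0 (d1 h (some α)))).le_tsum n (fun m _ => by positivity)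
        have e1 : ext0 (d1 h (some α)) ((K1.e (en l n) : K1 W) : OnePoint (K1 W)) = 1 := by
          show (if en l n = α then (1 : ℝ) else 0) = 1
          rw [if_pos hn]
        rw [e1] at hs
        have e2 : (0 : ℝ) < (1 / 2 : ℝ) ^ n * min 1 |1| := by
          rw [abs_one, min_self]; positivity
        have e3 : 0 ≤ |ext0 (d1 h (some α)) ((K1.p : K1 W) : OnePoint (K1 W))| := abs_nonneg _
        show 0 < |ext0 (d1 h (some α)) ((K1.p : K1 W) : OnePoint (K1 W))| + _
        linarith
  · intro e l hel
    cases e with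
    | none =>
      constructor
      · show |(0 : ℝ)| + ∑' n : ℕ, (1 / 2 : ℝ) ^ n * min 1 |(0 : ℝ)| = 0
        simp
      · show (0 : ℝ) < |(0 : ℝ)| + |(0 : ℝ)| + |(1 : ℝ)|
        norm_num
    | some α =>
      have hel' : (if l < α then (1 : ℝ) else 0) = 1 := hel
      have hla : l < α := by
        by_contra h1
        rw [if_neg h1] at hel'
        norm_num at hel'
      constructor
      · show |(0 : ℝ)| + ∑' n : ℕ, (1 / 2 : ℝ) ^ n * min 1 |(if en l n = α then (1 : ℝ) else 0)| = 0
        have : ∀ n, (if en l n = α then (1 : ℝ) else 0) = 0 := by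
          intro n
          rw [if_neg]
          intro h2
          have h3 : en l n ∈ Set.Iic l := by rw [hen l]; exact ⟨n, rfl⟩
          rw [h2] at h3
          exact absurd hla (not_lt.2 h3)
        simp [this]
      · show (0 : ℝ) < |(0 : ℝ)| + |(if l < α then 1 / ((h α l : ℝ) + 1) else 0)| + |(0 : ℝ)|
        rw [if_pos hla]
        have : (0 : ℝ) < 1 / ((h α l : ℝ) + 1) := by positivity
        have h2 := abs_pos.2 this.ne'
        simp only [abs_zero]
        linarith
  · intro y hy
    by_cases hall : ∀ l, y l = 1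
    · exact ⟨none, funext fun l => (hall l).symm⟩
    · push Not at hall
      obtain ⟨α, hα, hmin⟩ := WellFounded.has_min (wellFounded_lt (α := W)) {l | y l ≠ 1} hall
      refine ⟨some α, funext fun l => ?_⟩
      show (if l < α then (1 : ℝ) else 0) = y l
      by_cases hl : l < α
      · rw [if_pos hl]
        by_contra hne
        exact hmin l (fun h2 => hne h2.symm) hl
      · rw [if_neg hl]
        have h2 : y α = 0 := (hy.1 α).resolve_right hα
        have h3 := hy.2 α l (not_lt.1 hl)
        rcases hy.1 l with h4 | h4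
        · exact h4.symm
        · rw [h2, h4] at h3; norm_num at h3

lemma first_bad (hC : ∀ α : W, (Set.Iio α).Countable) (hU : ¬ (Set.univ : Set W).Countable)
    {Z : Type} [TopologicalSpace Z] (j : Z → (W → ℝ)) (hj : IsEmbedding j)
    (hr : Set.range j = B0 W) : ¬ CountablyTight Z ∧ ¬ SequentialSpace Z := by
  classical
  have hbd : ∀ T : Set W, T.Countable → ∃ γ, ∀ α ∈ T, α < γ := by
    intro T hT
    by_contra hcon
    push Not at hcon
    apply hU
    have h1 : (⋃ α ∈ T, Set.Iic α).Countable := by
      apply hT.biUnion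
      intro α _
      have : Set.Iic α = insert α (Set.Iio α) := by
        ext x; simp [le_iff_eq_or_lt]
      rw [this]
      exact (hC α).insert α
    refine h1.mono ?_
    intro γ _
    obtain ⟨α, hα, hle⟩ := hcon γ
    exact Set.mem_biUnion hα hle
  have hne : Nonempty W := by
    by_contra hemp
    rw [not_nonempty_iff] at hemp
    exact hU (Set.countable_univ_iff.2 inferInstance)
  obtain ⟨top, htop⟩ : ∃ z, j z = fun _ => (1 : ℝ) := by
    have : (fun _ => (1 : ℝ)) ∈ Set.range j := by
      rw [hr]; exact ⟨fun _ => Or.inr rfl, fun _ _ _ => le_rfl⟩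
    exact this
  obtain ⟨A, hA⟩ : ∃ A : Set Z, A = {z | ∃ β, j z β = 0} := ⟨_, rfl⟩
  have key : ∀ A' : Set Z, A' ⊆ A → A'.Countable → top ∉ closure A' := by
    intro A' hsub hcount hmem
    have hch : ∀ z : Z, ∃ β, z ∈ A → j z β = 0 := by
      intro z
      by_cases hz : z ∈ A
      · have hz' := hz
        rw [hA] at hz'
        obtain ⟨β, hβ⟩ := hz'
        exact ⟨β, fun _ => hβ⟩
      · exact ⟨Classical.arbitrary W, fun h => absurd h hz⟩
    choose β hβ using hch
    obtain ⟨γ, hγ⟩ := hbd (β '' A') (hcount.image β)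
    have hcl : closure A' ⊆ {z | j z γ = 0} := by
      apply closure_minimal
      · intro z hz
        have h1 := hβ z (hsub hz)
        have h2 : β z < γ := hγ _ ⟨z, hz, rfl⟩
        have h3 : j z ∈ B0 W := by rw [← hr]; exact ⟨z, rfl⟩
        have h4 := h3.2 (β z) γ h2.le
        rcases h3.1 γ with h5 | h5
        · exact h5
        · rw [h1, h5] at h4; norm_num at h4
      · exact isClosed_eq ((continuous_apply γ).comp hj.continuous) continuous_const
    have := hcl hmem
    have h2 : j top γ = 0 := this
    rw [htop] at h2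
    norm_num at h2
  have hcl : top ∈ closure A := by
    rw [hj.toIsInducing.closure_eq_preimage_closure_image]
    show j top ∈ closure (j '' A)
    rw [htop]
    have ht : Tendsto (fun α : W => fun β : W => if β < α then (1 : ℝ) else 0) atTop
        (𝓝 (fun _ => (1 : ℝ))) := by
      rw [tendsto_pi_nhds]
      intro β
      apply tendsto_const_nhds.congr'
      obtain ⟨γ, hγ⟩ := hbd {β} (Set.countable_singleton β)
      filter_upwards [eventually_ge_atTop γ] with α hα
      rw [if_pos ((hγ β rfl).trans_le hα)]
    apply mem_closure_of_tendsto ht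
    apply Eventually.of_forall
    intro α
    have hmem : (fun β : W => if β < α then (1 : ℝ) else 0) ∈ Set.range j := by
      rw [hr]
      refine ⟨fun l => ?_, fun l l' hll => ?_⟩
      · show (if l < α then (1 : ℝ) else 0) = 0 ∨ (if l < α then (1 : ℝ) else 0) = 1
        split_ifs <;> simp
      · show (if l' < α then (1 : ℝ) else 0) ≤ (if l < α then (1 : ℝ) else 0)
        by_cases h1 : l' < α
        · rw [if_pos h1, if_pos (hll.trans_lt h1)]
        · rw [if_neg h1]; split_ifs <;> norm_num
    obtain ⟨z, hz⟩ := hmem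
    refine ⟨z, ?_, hz⟩
    rw [hA]
    refine ⟨α, ?_⟩
    rw [hz]
    simp
  constructor
  · intro hct
    obtain ⟨A', h1, h2, h3⟩ := hct A top hcl
    exact key A' h1 h2 h3
  · intro hseq
    have hsc : IsSeqClosed A := by
      intro x z hx hxz
      by_contra hz
      have hz1 : j z = fun _ => (1 : ℝ) := by
        funext β
        have h3 : j z ∈ B0 W := by rw [← hr]; exact ⟨z, rfl⟩
        rcases h3.1 β with h5 | h5
        · exfalso; apply hz; rw [hA]; exact ⟨β, h5⟩
        · exact h5
      have hzt : z = top := hj.injective (hz1.trans htop.symm)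
      apply key (Set.range x) (by rintro _ ⟨n, rfl⟩; exact hx n) (Set.countable_range x)
      rw [← hzt]
      exact mem_closure_of_tendsto hxz (Eventually.of_forall fun n => ⟨n, rfl⟩)
    have hclosed : IsClosed A := hsc.isClosed
    rw [hclosed.closure_eq, hA] at hcl
    obtain ⟨β, hβ⟩ := hcl
    rw [htop] at hβ
    norm_num at hβ

end first

/-! ### Second example: the two arrows space -/

/-- the unit interval -/
abbrev UI : Type := ↥(Set.Icc (0 : ℝ) 1)

/-- coordinates for the second example -/
inductive K2 : Type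
  | p : K2
  | q : K2
  | e : UI × Bool → K2

instance : TopologicalSpace K2 := ⊥
instance : DiscreteTopology K2 := ⟨rfl⟩

open Classical in
/-- the functions -/
noncomputable def d2 (b : UI × Bool) : K2 → ℝ
  | K2.p => 0
  | K2.q => b.1.1
  | K2.e b' => if b' = b then 1 else 0

open Classical in
/-- the target points -/
noncomputable def u2 (b : UI × Bool) (t : UI) : ℝ := if t < b.1 ∨ (t = b.1 ∧ b.2 = true) then 1 else 0

lemma u2_mem (b : UI × Bool) : u2 b ∈ B0 UI := by
  classical
  refine ⟨fun l => ?_, fun l l' hll => ?_⟩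
  · unfold u2; split_ifs <;> simp
  · unfold u2
    by_cases h1 : l' < b.1 ∨ (l' = b.1 ∧ b.2 = true)
    · rw [if_pos h1]
      have h2 : l < b.1 ∨ (l = b.1 ∧ b.2 = true) := by
        rcases h1 with h | ⟨h, h'⟩
        · exact Or.inl (hll.trans_lt h)
        · rcases lt_or_eq_of_le (hll.trans h.le) with h3 | h3
          · exact Or.inl h3
          · exact Or.inr ⟨h3, h'⟩
      rw [if_pos h2]
    · rw [if_neg h1]; split_ifs <;> norm_num

lemma second_example :
    ∃ (Y : Type) (_ : TopologicalSpace Y) (B : Set Y), Arises Y B ∧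
      ∃ j : B → (UI → ℝ), IsEmbedding j ∧ Set.range j = B0 UI := by
  classical
  have hd0 : ∀ e, Tendsto (d2 e) cofinite (𝓝 0) := by
    intro b
    apply tendsto_zero_iff
    intro ε hε
    refine ((Set.finite_singleton K2.q).union (Set.finite_singleton (K2.e b))).subset ?_
    intro k hk
    have hk' : ε ≤ |d2 b k| := hk
    cases k with
    | p => simp [d2] at hk'; linarith
    | q => left; rfl
    | e b' =>
      right
      by_cases hb : b' = b
      · rw [hb]; rfl
      · exfalso
        simp [d2, hb] at hk'; linarith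
  apply construction K2 K2.p (UI × Bool) UI d2 hd0
    (fun t s => |s ((K2.p : K2) : OnePoint K2)| + max (s ((K2.q : K2) : OnePoint K2) - t.1) 0 +
      |s ((K2.e (t, true) : K2) : OnePoint K2)|)
    (fun t s => |s ((K2.p : K2) : OnePoint K2)| + max (t.1 - s ((K2.q : K2) : OnePoint K2)) 0 +
      |s ((K2.e (t, false) : K2) : OnePoint K2)|)
    _ _ _ _ u2 u2_mem _ _ _
  · intro l; fun_prop
  · intro l; fun_prop
  · intro l s
    positivity
  · intro l s hs
    have := abs_pos.2 hs
    positivity
  · intro b t hbt
    have hn : ¬ (t < b.1 ∨ (t = b.1 ∧ b.2 = true)) := by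
      intro h
      unfold u2 at hbt
      rw [if_pos h] at hbt
      norm_num at hbt
    push Not at hn
    have hle : b.1.1 ≤ t.1 := hn.1
    constructor
    · show |(0 : ℝ)| + max (b.1.1 - t.1) 0 + |(if (t, true) = b then (1 : ℝ) else 0)| = 0
      have h1 : ¬ ((t, true) = b) := by
        intro h
        have h2 : t = b.1 := congrArg Prod.fst h
        have h3 : true = b.2 := congrArg Prod.snd h
        exact hn.2 h2 h3.symm
      rw [if_neg h1, max_eq_right (by linarith)]
      simp
    · show 0 < |(0 : ℝ)| + max (t.1 - b.1.1) 0 + |(if (t, false) = b then (1 : ℝ) else 0)|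
      rcases lt_or_eq_of_le hle with h1 | h1
      · have h2 : 0 < max (t.1 - b.1.1) 0 := lt_max_of_lt_left (by linarith)
        have h3 : 0 ≤ |(if (t, false) = b then (1 : ℝ) else 0)| := abs_nonneg _
        rw [abs_zero]
        linarith
      · have h4 : t = b.1 := Subtype.ext h1.symm
        have h5 : (t, false) = b := by
          apply Prod.ext
          · exact h4
          · have := hn.2 h4
            simpa using this
        rw [if_pos h5]
        have h2 : 0 ≤ max (t.1 - b.1.1) 0 := le_max_right _ _
        rw [abs_zero, abs_one]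
        linarith
  · intro b t hbt
    have hn : (t < b.1 ∨ (t = b.1 ∧ b.2 = true)) := by
      by_contra h
      unfold u2 at hbt
      rw [if_neg h] at hbt
      norm_num at hbt
    have hle : t.1 ≤ b.1.1 := by
      rcases hn with h | h
      · exact (le_of_lt h : t ≤ b.1)
      · rw [h.1]
    constructor
    · show |(0 : ℝ)| + max (t.1 - b.1.1) 0 + |(if (t, false) = b then (1 : ℝ) else 0)| = 0
      have h1 : ¬ ((t, false) = b) := by
        intro h
        have h2 : t = b.1 := congrArg Prod.fst h
        have h3 : false = b.2 := congrArg Prod.snd h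
        rcases hn with h4 | h4
        · rw [h2] at h4; exact lt_irrefl _ h4
        · rw [← h3] at h4; exact absurd h4.2 (by decide)
      rw [if_neg h1, max_eq_right (by linarith)]
      simp
    · show 0 < |(0 : ℝ)| + max (b.1.1 - t.1) 0 + |(if (t, true) = b then (1 : ℝ) else 0)|
      rcases hn with h | h
      · have h0 : t.1 < b.1.1 := h
        have h2 : 0 < max (b.1.1 - t.1) 0 := lt_max_of_lt_left (by linarith)
        have h3 : 0 ≤ |(if (t, true) = b then (1 : ℝ) else 0)| := abs_nonneg _
        rw [abs_zero]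
        linarith
      · have h5 : (t, true) = b := Prod.ext h.1 h.2.symm
        rw [if_pos h5]
        have h2 : 0 ≤ max (b.1.1 - t.1) 0 := le_max_right _ _
        rw [abs_zero, abs_one]
        linarith
  · intro y hy
    obtain ⟨I, hI⟩ : ∃ I : Set ℝ, I = {r | ∃ t : UI, t.1 = r ∧ y t = 1} := ⟨_, rfl⟩
    have y01 : ∀ t, y t ≠ 1 → y t = 0 := fun t ht => (hy.1 t).resolve_right ht
    by_cases hne : I.Nonempty
    · have hbdd : BddAbove I := ⟨1, by
        rw [hI]; rintro _ ⟨t, rfl, _⟩; exact t.2.2⟩
      have hs0 : 0 ≤ sSup I := by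
        obtain ⟨r, hr⟩ := hne
        have hr' := hr
        rw [hI] at hr'
        obtain ⟨t, ht, _⟩ := hr'
        exact (by rw [← ht]; exact t.2.1 : 0 ≤ r).trans (le_csSup hbdd hr)
      have hs1 : sSup I ≤ 1 := csSup_le hne (by rw [hI]; rintro _ ⟨t, rfl, _⟩; exact t.2.2)
      have hlt : ∀ t : UI, t.1 < sSup I → y t = 1 := by
        intro t ht
        obtain ⟨r, hr, htr⟩ := exists_lt_of_lt_csSup hne ht
        rw [hI] at hr
        obtain ⟨t', rfl, ht'⟩ := hr
        have h2 := hy.2 t t' (le_of_lt htr : t ≤ t')
        rw [ht'] at h2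
        by_contra h3
        rw [y01 t h3] at h2
        norm_num at h2
      have hgt : ∀ t : UI, sSup I < t.1 → y t = 0 := by
        intro t ht
        apply y01
        intro h1
        have : t.1 ∈ I := by rw [hI]; exact ⟨t, rfl, h1⟩
        exact absurd (le_csSup hbdd this) (not_le.2 ht)
      obtain ⟨s, hs⟩ : ∃ s : UI, s.1 = sSup I := ⟨⟨sSup I, hs0, hs1⟩, rfl⟩
      refine ⟨(s, decide (y s = 1)), funext fun t => ?_⟩
      unfold u2
      rcases lt_trichotomy t s with h | h | h
      · rw [if_pos (Or.inl h)]
        exact (hlt t (by rw [← hs]; exact h)).symm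
      · subst h
        by_cases h1 : y t = 1
        · rw [if_pos (Or.inr ⟨rfl, decide_eq_true h1⟩), h1]
        · rw [if_neg, y01 t h1]
          rintro (h2 | ⟨_, h2⟩)
          · exact lt_irrefl _ h2
          · exact h1 (of_decide_eq_true h2)
      · rw [if_neg]
        · exact (hgt t (by rw [← hs]; exact h)).symm
        · rintro (h2 | ⟨h2, _⟩)
          · exact lt_asymm h h2
          · have h2' : t = s := h2
            rw [h2'] at h; exact lt_irrefl _ h
    · have hy0 : ∀ t, y t = 0 := by
        intro t
        apply y01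
        intro h
        apply hne
        rw [hI]
        exact ⟨t.1, t, rfl, h⟩
      refine ⟨(⟨0, by constructor <;> norm_num⟩, false), funext fun t => ?_⟩
      unfold u2
      rw [if_neg, hy0]
      rintro (h2 | ⟨_, h2⟩)
      · exact absurd (h2 : t.1 < 0) (not_lt.2 t.2.1)
      · exact absurd h2 (by decide)

lemma second_bad {Z : Type} [TopologicalSpace Z] (j : Z → (UI → ℝ)) (hj : IsEmbedding j)
    (hr : Set.range j = B0 UI) : ¬ Monolithic Z := by
  classical
  intro hmono
  have hx : ∀ s : UI, ∃ z, j z = u2 (s, true) := by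
    intro s
    have : u2 (s, true) ∈ Set.range j := by rw [hr]; exact u2_mem _
    exact this
  choose x hx using hx
  obtain ⟨A, hA⟩ : ∃ A : Set Z, A = x '' {s : UI | ∃ q : ℚ, (q : ℝ) = s.1} := ⟨_, rfl⟩
  have hxval : ∀ s t : UI, j (x s) t = if t ≤ s then 1 else 0 := by
    intro s t
    rw [hx]
    unfold u2
    by_cases h : t ≤ s
    · rw [if_pos h, if_pos]
      rcases lt_or_eq_of_le h with h1 | h1
      · exact Or.inl h1
      · exact Or.inr ⟨h1, rfl⟩
    · rw [if_neg h, if_neg]
      rintro (h1 | ⟨h1, _⟩)
      · exact h (le_of_lt h1)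
      · exact h (le_of_eq h1)
  have hxinj : Function.Injective x := by
    intro s t hst
    have h1 := hxval s t
    have h2 := hxval t s
    have h3 := hxval s s
    have h4 := hxval t t
    rw [if_pos le_rfl] at h3 h4
    rw [hst, h4] at h1
    rw [← hst, h3] at h2
    apply le_antisymm
    · by_contra h; rw [if_neg h] at h2; norm_num at h2
    · by_contra h; rw [if_neg h] at h1; norm_num at h1
  have hQc : {s : UI | ∃ q : ℚ, (q : ℝ) = s.1}.Countable := by
    have h1 : (Set.range (fun q : ℚ => (q : ℝ))).Countable := Set.countable_range _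
    have h2 := h1.preimage_of_injOn (f := fun s : UI => s.1) (Subtype.val_injective.injOn)
    refine h2.mono ?_
    rintro s ⟨q, hq⟩
    exact ⟨q, hq⟩
  have hQi : {s : UI | ∃ q : ℚ, (q : ℝ) = s.1}.Infinite := by
    have hmem : ∀ n : ℕ, (1 / ((n : ℝ) + 1)) ∈ Set.Icc (0 : ℝ) 1 := by
      intro n
      constructor
      · positivity
      · rw [div_le_one (by positivity)]
        have : (0 : ℝ) ≤ n := Nat.cast_nonneg n
        linarith
    apply Set.infinite_of_injective_forall_mem (f := fun n : ℕ => (⟨1 / ((n : ℝ) + 1), hmem n⟩ : UI))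
    · intro n m hnm
      have h1 : (1 / ((n : ℝ) + 1)) = 1 / ((m : ℝ) + 1) := congrArg Subtype.val hnm
      have hn : (n : ℝ) + 1 ≠ 0 := by positivity
      have hm : (m : ℝ) + 1 ≠ 0 := by positivity
      field_simp at h1
      have : (n : ℝ) = m := by linarith
      exact_mod_cast this
    · intro n
      exact ⟨1 / ((n : ℚ) + 1), by push_cast; rfl⟩
  have hAinf : A.Infinite := by rw [hA]; exact hQi.image hxinj.injOn
  have hAc : A.Countable := by rw [hA]; exact hQc.image x
  obtain ⟨𝒩, hcard, hnet⟩ := hmono A hAinf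
  have h𝒩 : 𝒩.Countable := by
    rw [← Cardinal.le_aleph0_iff_set_countable] at hAc ⊢
    exact hcard.trans hAc
  have hcl : ∀ s : UI, s.1 < 1 → x s ∈ closure A := by
    intro s hs1
    have hex : ∀ n : ℕ, ∃ q : UI, (∃ r : ℚ, (r : ℝ) = q.1) ∧ s.1 < q.1 ∧
        q.1 < s.1 + 1 / ((n : ℝ) + 1) := by
      intro n
      have h1 : s.1 < min 1 (s.1 + 1 / ((n : ℝ) + 1)) := by
        apply lt_min hs1
        have : (0 : ℝ) < 1 / ((n : ℝ) + 1) := by positivity
        linarith
      obtain ⟨r, hr1, hr2⟩ := exists_rat_btwn h1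
      exact ⟨⟨r, ⟨s.2.1.trans hr1.le, (hr2.le.trans (min_le_left _ _))⟩⟩, ⟨r, rfl⟩, hr1,
        hr2.trans_le (min_le_right _ _)⟩
    choose q hq1 hq2 hq3 using hex
    have ht : Tendsto (fun n => j (x (q n))) atTop (𝓝 (j (x s))) := by
      rw [tendsto_pi_nhds]
      intro t
      apply tendsto_const_nhds.congr'
      by_cases hts : t ≤ s
      · apply Eventually.of_forall
        intro n
        show j (x s) t = j (x (q n)) t
        rw [hxval, hxval, if_pos hts, if_pos]
        have h1 : t.1 ≤ s.1 := hts
        have h2 : t.1 ≤ (q n).1 := h1.trans (hq2 n).le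
        exact h2
      · have hts' : s.1 < t.1 := not_le.1 hts
        obtain ⟨N, hN⟩ := exists_nat_one_div_lt (sub_pos.2 hts')
        rw [EventuallyEq, eventually_atTop]
        refine ⟨N, fun n hn => ?_⟩
        show j (x s) t = j (x (q n)) t
        rw [hxval, hxval, if_neg hts, if_neg]
        intro hle
        have h1 : t.1 ≤ (q n).1 := hle
        have h2 := hq3 n
        have h3 : 1 / ((n : ℝ) + 1) ≤ 1 / ((N : ℝ) + 1) := by
          apply one_div_le_one_div_of_le (by positivity)
          have : (N : ℝ) ≤ n := by exact_mod_cast hn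
          linarith
        linarith
    have ht2 : Tendsto (fun n => x (q n)) atTop (𝓝 (x s)) := hj.tendsto_nhds_iff.2 ht
    apply mem_closure_of_tendsto ht2
    apply Eventually.of_forall
    intro n
    rw [hA]
    exact ⟨q n, hq1 n, rfl⟩
  have hch : ∀ s : UI, ∃ N : Set Z, s.1 < 1 → N ∈ 𝒩 ∧ x s ∈ N ∧ N ⊆ {z | 1 / 2 < j z s} := by
    intro s
    by_cases hs1 : s.1 < 1
    · have hopen : IsOpen {z | 1 / 2 < j z s} :=
        isOpen_lt continuous_const ((continuous_apply s).comp hj.continuous)
      have hmem : x s ∈ {z | 1 / 2 < j z s} := by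
        show 1 / 2 < j (x s) s
        rw [hxval, if_pos le_rfl]; norm_num
      obtain ⟨N, hN1, hN2, hN3⟩ := hnet _ hopen (x s) ⟨hcl s hs1, hmem⟩
      exact ⟨N, fun _ => ⟨hN1, hN2, hN3.trans Set.inter_subset_right⟩⟩
    · exact ⟨∅, fun h => absurd h hs1⟩
  choose N hN using hch
  have hcount : {s : UI | s.1 < 1}.Countable := by
    have hmaps : Set.MapsTo N {s : UI | s.1 < 1} 𝒩 := fun s hs => (hN s hs).1
    apply hmaps.countable_of_injOn _ h𝒩
    have aux : ∀ s t : UI, s.1 < 1 → t.1 < 1 → N s = N t → t ≤ s := by
      intro s t hs ht hst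
      have h1 := (hN s hs).2.1
      rw [hst] at h1
      have h2 : 1 / 2 < j (x s) t := (hN t ht).2.2 h1
      rw [hxval] at h2
      by_contra h3
      rw [if_neg h3] at h2
      norm_num at h2
    intro s hs t ht hst
    exact le_antisymm (aux t s ht hs hst.symm) (aux s t hs ht hst)
  have himg : (Set.Ico (0 : ℝ) 1).Countable := by
    refine (hcount.image Subtype.val).mono ?_
    intro r hr
    exact ⟨⟨r, hr.1, hr.2.le⟩, hr.2, rfl⟩
  rw [← Cardinal.le_aleph0_iff_set_countable, Cardinal.mk_Ico_real (by norm_num)] at himg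
  exact absurd himg (not_le.2 Cardinal.aleph0_lt_continuum)

/-- All three parts of the question have a negative answer. -/
theorem result :
    (∃ (Y : Type) (_ : TopologicalSpace Y) (B : Set Y), Arises Y B ∧ ¬ CountablyTight B) ∧
    (∃ (Y : Type) (_ : TopologicalSpace Y) (B : Set Y), Arises Y B ∧ ¬ SequentialSpace B) ∧
    (∃ (Y : Type) (_ : TopologicalSpace Y) (B : Set Y), Arises Y B ∧ ¬ Monolithic B) := by
  have hC : ∀ α : (Cardinal.aleph 1).ord.ToType, (Set.Iio α).Countable := by
    intro α
    rw [Cardinal.countable_iff_lt_aleph_one]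
    have := Cardinal.mk_Iio_lt α (by simp)
    simpa using this
  have hU : ¬ (Set.univ : Set (Cardinal.aleph 1).ord.ToType).Countable := by
    rw [Cardinal.countable_iff_lt_aleph_one]
    simp
  obtain ⟨Y, iY, B, hB, j, hj, hr⟩ := first_example (W := (Cardinal.aleph 1).ord.ToType) hC
  obtain ⟨Y', iY', B', hB', j', hj', hr'⟩ := second_example
  have hbad := first_bad hC hU j hj hr
  exact ⟨⟨Y, iY, B, hB, hbad.1⟩, ⟨Y, iY, B, hB, hbad.2⟩, ⟨Y', iY', B', hB', second_bad j' hj' hr'⟩⟩

end Pool.Agent.Results.MP_570618_gt.TkachenkoAllFalse
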